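import Pool.Agent.Helper50.FE.Goals

set_option autoImplicit false

open Finset Pool.Agent.Helper22.FSU

namespace Pool.Agent.Helper50.FE

theorem exists_x0 (A B : ℝ) : ∃ x0 : ℕ, ∀ n : ℕ, x0 ≤ n → A ≤ Real.log n ∧ B ≤ (n : ℝ) := by
  have h1 : ∀ᶠ n : ℕ in Filter.atTop, A ≤ Real.log n :=
    (Real.tendsto_log_atTop.comp tendsto_natCast_atTop_atTop).eventually_ge_atTop A
  have h2 : ∀ᶠ n : ℕ in Filter.atTop, B ≤ (n : ℝ) :=
    tendsto_natCast_atTop_atTop.eventually_ge_atTop B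
  obtain ⟨x0, hx0⟩ := Filter.eventually_atTop.mp (h1.and h2)
  exact ⟨x0, fun n hn => hx0 n hn⟩

theorem mul_log_fact_le {a b ρ : ℕ} (h : ρ * a ≤ b) :
    (ρ : ℝ) * Real.log (a.factorial : ℝ) ≤ Real.log (b.factorial : ℝ) := by
  obtain ⟨V, hV, -⟩ := fact_pow_mul a ρ (ρ * a) le_rfl
  have hVpos : 1 ≤ V := by
    rcases Nat.eq_zero_or_pos V with h0 | h0
    · rw [h0, mul_zero] at hV
      exact absurd hV.symm (Nat.factorial_ne_zero _)
    · exact h0
  have h1 : a.factorial ^ ρ ≤ b.factorial := by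
    calc a.factorial ^ ρ ≤ a.factorial ^ ρ * V := Nat.le_mul_of_pos_right _ hVpos
      _ = (ρ * a).factorial := hV
      _ ≤ b.factorial := Nat.factorial_le h
  have h2 : ((a.factorial : ℝ)) ^ ρ ≤ (b.factorial : ℝ) := by exact_mod_cast h1
  have h3 : (0 : ℝ) < (a.factorial : ℝ) ^ ρ := by positivity
  have := Real.log_le_log h3 h2
  rwa [Real.log_pow] at this

/-- the final numerical contradiction -/
theorem num_contra {u M W V : ℝ} (hu : 0 < u) (hu1 : u ≤ 1 / 100) (hM : 1 ≤ M)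
    (hW : (1 - u) * M ≤ W) (hV : V ≤ (1 + u) * M)
    (h : (1 - u) ^ 2 * W + (100 / 3) * u * (1 - u) * W ≤ (1 + 2 * u) * V + u + u * M) : False := by
  have h1 : ((1 - u) ^ 2 + (100 / 3) * u * (1 - u)) * ((1 - u) * M) ≤
      (1 - u) ^ 2 * W + (100 / 3) * u * (1 - u) * W := by
    have h0 : 0 ≤ (1 - u) ^ 2 + (100 / 3) * u * (1 - u) := by
      have : 0 ≤ 1 - u := by linarith
      positivity
    nlinarith [mul_le_mul_of_nonneg_left hW h0]
  have h2 : (1 + 2 * u) * V ≤ (1 + 2 * u) * ((1 + u) * M) :=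
    mul_le_mul_of_nonneg_left hV (by linarith)
  have h3 : ((1 - u) ^ 2 + (100 / 3) * u * (1 - u)) * ((1 - u) * M) ≤
      ((1 + 2 * u) * (1 + u) + u + u) * M := by nlinarith
  have h4 : ((1 - u) ^ 2 + (100 / 3) * u * (1 - u)) * (1 - u) ≤
      (1 + 2 * u) * (1 + u) + u + u := by
    have hM0 : 0 < M := by linarith
    by_contra hc
    push Not at hc
    nlinarith [mul_lt_mul_of_pos_right hc hM0]
  nlinarith [mul_pos hu hu, mul_pos (mul_pos hu hu) hu]

theorem near_small {S : Finset ℕ} (hS : ∀ p ∈ S, Nat.Prime p) {η : ℝ} (hη : 0 < η) {n : ℕ}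
    (hn : 3 ≤ n) (hη2 : 4 ≤ η * Real.log n)
    (h2 : Real.log 2 ≤ (η / 6) * Real.log (n.factorial : ℝ)) {k : ℕ → ℕ}
    (h : Near S (1 - η) n k) :
    |((((n.factorial : ℕ) : ℚ) / (su S k : ℚ) : ℚ) : ℝ) - 1| ≤
        Real.exp (-((η / 3) * Real.log (n.factorial : ℝ))) ∧
      Real.log (su S k : ℝ) ≤ Real.log (n.factorial : ℝ) + 1 := by
  have hP : (0 : ℝ) < su S k := by exact_mod_cast su_pos hS k
  have hf : (0 : ℝ) < (n.factorial : ℝ) := by exact_mod_cast n.factorial_pos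
  have hap := (approx hη hn hη2 hP h).1
  set L := Real.log (n.factorial : ℝ) with hL
  set z := L - Real.log (su S k : ℝ) with hz
  have hLu : L ≤ (n : ℝ) * Real.log n := log_fact_upper n
  have hL0 : 0 ≤ L := Real.log_nonneg (by exact_mod_cast n.factorial_pos)
  have h3 : |z| ≤ Real.exp (-(η / 2) * L) := by
    refine hap.trans (Real.exp_le_exp.mpr ?_)
    nlinarith
  have h4 : Real.exp (-(η / 2) * L) ≤ 1 := by
    rw [Real.exp_le_one_iff]; nlinarith
  have h5 : ((((n.factorial : ℕ) : ℚ) / (su S k : ℚ) : ℚ) : ℝ) = Real.exp z := by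
    rw [hz, Real.exp_sub, hL, Real.exp_log hf, Real.exp_log hP]
    push_cast
    rfl
  constructor
  · rw [h5]
    refine (Real.abs_exp_sub_one_le (h3.trans h4)).trans ?_
    calc 2 * |z| ≤ 2 * Real.exp (-(η / 2) * L) := by linarith
      _ = Real.exp (Real.log 2 + (-(η / 2) * L)) := by
          rw [Real.exp_add, Real.exp_log (by norm_num)]
      _ ≤ Real.exp (-((η / 3) * L)) := by
          apply Real.exp_le_exp.mpr
          nlinarith
  · have h6 := (abs_le.mp h3).1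
    have h7 : -1 ≤ z := by linarith
    rw [hz] at h7
    linarith

/-- the integer quotient of two chain members -/
theorem quot_low {u : ℝ} (hu0 : 0 < u) (hu1 : u ≤ 1 / 100) {a b ρ : ℕ} (ha : 0 < a)
    (hρu : 3 / u ≤ (ρ : ℝ)) (hab : ρ * a ≤ b) (h6 : 3 / u ≤ Real.log a) {La Lb : ℝ}
    (hLa : (a : ℝ) * (Real.log a - 1) ≤ La) (hLb : Lb ≤ (b : ℝ) * Real.log b)
    (hlog : Real.log b ≤ (1 + u / 3) * Real.log a) :
    (1 - u) * Lb ≤ ((b / a : ℕ) : ℝ) * La := by
  have har : (0 : ℝ) < a := by exact_mod_cast ha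
  have h1 : (ρ : ℝ) * a ≤ b := by exact_mod_cast hab
  have h2 : (b : ℝ) / a - 1 ≤ ((b / a : ℕ) : ℝ) := by
    have h3 : (b : ℝ) / a < ((b / a : ℕ) : ℝ) + 1 := by
      rw [div_lt_iff₀ har]
      have h4 : b < (b / a + 1) * a := by
        have h5 := Nat.div_add_mod b a
        have h6 := Nat.mod_lt b ha
        nlinarith
      exact_mod_cast h4
    linarith
  obtain ⟨z, hz⟩ : ∃ z : ℝ, z = (b : ℝ) / a := ⟨_, rfl⟩
  rw [← hz] at h2
  have hzρ : (ρ : ℝ) ≤ z := by rw [hz, le_div_iff₀ har]; exact h1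
  have hz3 : 3 / u ≤ z := hρu.trans hzρ
  have hz4 : 3 ≤ u * z := by
    have := mul_le_mul_of_nonneg_left hz3 hu0.le
    rwa [mul_div_cancel₀ _ hu0.ne'] at this
  have hz5 : (1 - u / 3) * z ≤ ((b / a : ℕ) : ℝ) := by linarith
  have hz0 : 0 < z := by nlinarith
  have h7 : 3 ≤ u * Real.log a := by
    have := mul_le_mul_of_nonneg_left h6 hu0.le
    rwa [mul_div_cancel₀ _ hu0.ne'] at this
  have h8 : (1 - u / 3) * ((a : ℝ) * Real.log a) ≤ La := by
    refine le_trans ?_ hLa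
    nlinarith
  have h9 : Lb ≤ (b : ℝ) * ((1 + u / 3) * Real.log a) := by
    refine hLb.trans ?_
    exact mul_le_mul_of_nonneg_left hlog (by positivity)
  have h10 : (b : ℝ) = z * a := by rw [hz]; field_simp
  have hlg0 : 0 < Real.log a := by nlinarith
  obtain ⟨w, hw⟩ : ∃ w : ℝ, w = (a : ℝ) * Real.log a := ⟨_, rfl⟩
  have hw0 : 0 < w := by rw [hw]; positivity
  rw [← hw] at h8
  have h11 : (1 - u) * Lb ≤ (1 - u) * ((1 + u / 3) * (z * w)) := by
    apply mul_le_mul_of_nonneg_left _ (by linarith)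
    calc Lb ≤ (b : ℝ) * ((1 + u / 3) * Real.log a) := h9
      _ = (1 + u / 3) * (z * w) := by rw [h10, hw]; ring
  have h12 : ((1 - u / 3) * z) * ((1 - u / 3) * w) ≤ ((b / a : ℕ) : ℝ) * La := by
    apply mul_le_mul hz5 h8
    · have : 0 ≤ 1 - u / 3 := by linarith
      positivity
    · positivity
  refine h11.trans (le_trans ?_ h12)
  have h13 : 0 < z * w := by positivity
  have h14 : (1 - u) * (1 + u / 3) ≤ (1 - u / 3) * (1 - u / 3) := by nlinarith
  have h15 := mul_le_mul_of_nonneg_right h14 h13.le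
  calc (1 - u) * ((1 + u / 3) * (z * w)) = ((1 - u) * (1 + u / 3)) * (z * w) := by ring
    _ ≤ ((1 - u / 3) * (1 - u / 3)) * (z * w) := h15
    _ = ((1 - u / 3) * z) * ((1 - u / 3) * w) := by ring

/-- The degrees `⌊D / L i⌋`. -/
theorem degrees {m : ℕ} (i0 : Fin m) (L : Fin m → ℝ) (hLpos : ∀ i, 0 < L i)
    (hL0 : ∀ i, L i0 ≤ L i) {u : ℝ} (hu0 : 0 < u) (hu1 : u ≤ 1 / 100) :
    ∃ (D : ℝ) (r : Fin m → ℕ), 0 < D ∧ (∀ i, L i ≤ u * D) ∧ (∀ i, 1 ≤ r i) ∧
      (∀ i, (r i : ℝ) * L i ≤ D) ∧ (∀ i, (1 - u) * D ≤ (r i : ℝ) * L i) ∧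
      ((∑ i, r i : ℕ) : ℝ) * L i0 ≤ m * D := by
  obtain ⟨Ls, hLs⟩ : ∃ Ls : ℝ, Ls = ∑ i, L i := ⟨_, rfl⟩
  have hLsle : ∀ i, L i ≤ Ls := fun i => by
    rw [hLs]
    exact Finset.single_le_sum (f := L) (fun j _ => (hLpos j).le) (Finset.mem_univ i)
  obtain ⟨D, hD⟩ : ∃ D : ℝ, D = (1 / u) * Ls := ⟨_, rfl⟩
  have huD : u * D = Ls := by rw [hD]; field_simp
  have hLuD : ∀ i, L i ≤ u * D := by
    intro i
    rw [huD]; exact hLsle i
  have hDpos : 0 < D := by
    have h1 := hLsle i0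
    have h2 := hLpos i0
    rw [hD]
    have : 0 < Ls := by linarith
    positivity
  have hr1 : ∀ i, ((⌊D / L i⌋₊ : ℕ) : ℝ) * L i ≤ D := by
    intro i
    have h1 : ((⌊D / L i⌋₊ : ℕ) : ℝ) ≤ D / L i := Nat.floor_le (div_nonneg hDpos.le (hLpos i).le)
    rwa [le_div_iff₀ (hLpos i)] at h1
  have hr2 : ∀ i, (1 - u) * D ≤ ((⌊D / L i⌋₊ : ℕ) : ℝ) * L i := by
    intro i
    have h1 : D / L i < ((⌊D / L i⌋₊ : ℕ) : ℝ) + 1 := Nat.lt_floor_add_one _
    rw [div_lt_iff₀ (hLpos i)] at h1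
    have h2 := hLuD i
    nlinarith
  refine ⟨D, fun i => ⌊D / L i⌋₊, hDpos, hLuD, ?_, hr1, hr2, ?_⟩
  · intro i
    apply Nat.le_floor
    rw [Nat.cast_one, le_div_iff₀ (hLpos i)]
    have := hLuD i
    nlinarith
  · push_cast
    rw [Finset.sum_mul]
    calc ∑ i, ((⌊D / L i⌋₊ : ℕ) : ℝ) * L i0 ≤ ∑ i : Fin m, D := by
          refine Finset.sum_le_sum fun i _ => ?_
          have h1 := hL0 i
          have h2 : (0 : ℝ) ≤ ((⌊D / L i⌋₊ : ℕ) : ℝ) := by positivity
          have h3 := hr1 i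
          have h4 := mul_le_mul_of_nonneg_left h1 h2
          linarith
      _ = m * D := by simp

/-- The sums over the exponents. -/
theorem expo_sums {m : ℕ} (L : Fin m → ℝ) (hLpos : ∀ i, 0 < L i) {u D V W : ℝ} (hu0 : 0 < u)
    (hu1 : u ≤ 1 / 100) (hD : 0 < D) (r : Fin m → ℕ) (hr : ∀ i, 1 ≤ r i)
    (hr1 : ∀ i, (r i : ℝ) * L i ≤ D) (hr2 : ∀ i, (1 - u) * D ≤ (r i : ℝ) * L i)
    (a e : Fin m → ℕ) (hea : ∀ i, e i ≤ a i) (hV : wt r a ≤ V) (hW : W ≤ wt r a - wt r e) :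
    ∑ i, (((a i - e i : ℕ) : ℕ) : ℝ) * L i ≤ D * V ∧
      (1 - u) * D * W ≤ ∑ i, (((a i - e i : ℕ) : ℕ) : ℝ) * L i := by
  have hrr : ∀ i, (0 : ℝ) < r i := fun i => by
    have := hr i
    exact_mod_cast this
  have hterm : ∀ i, (((a i - e i : ℕ) : ℕ) : ℝ) = (a i : ℝ) - e i := fun i => by
    rw [Nat.cast_sub (hea i)]
  constructor
  · calc ∑ i, (((a i - e i : ℕ) : ℕ) : ℝ) * L i ≤ ∑ i, ((a i : ℝ) / r i) * D := by
          refine Finset.sum_le_sum fun i _ => ?_
          rw [hterm]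
          have h1 : ((a i : ℝ) - e i) * L i ≤ (a i : ℝ) * L i := by
            have := hLpos i
            have h2 : (0 : ℝ) ≤ e i := by positivity
            nlinarith
          have h3 : (a i : ℝ) * L i = ((a i : ℝ) / r i) * ((r i : ℝ) * L i) := by
            have := (hrr i).ne'
            field_simp
          rw [h3] at h1
          refine h1.trans ?_
          apply mul_le_mul_of_nonneg_left (hr1 i)
          have := hrr i
          positivity
      _ = D * wt r a := by rw [← Finset.sum_mul, mul_comm]; rfl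
      _ ≤ D * V := mul_le_mul_of_nonneg_left hV hD.le
  · calc (1 - u) * D * W ≤ (1 - u) * D * (wt r a - wt r e) := by
          apply mul_le_mul_of_nonneg_left hW
          have : 0 ≤ 1 - u := by linarith
          positivity
      _ = ∑ i, (((a i : ℝ) - e i) / r i) * ((1 - u) * D) := by
          unfold wt
          rw [← Finset.sum_sub_distrib, mul_comm, Finset.sum_mul]
          refine Finset.sum_congr rfl fun i _ => ?_
          ring
      _ ≤ ∑ i, (((a i - e i : ℕ) : ℕ) : ℝ) * L i := by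
          refine Finset.sum_le_sum fun i _ => ?_
          rw [hterm]
          have h3 : ((a i : ℝ) - e i) * L i = (((a i : ℝ) - e i) / r i) * ((r i : ℝ) * L i) := by
            have := (hrr i).ne'
            field_simp
          rw [h3]
          apply mul_le_mul_of_nonneg_left (hr2 i)
          have h4 : (0 : ℝ) ≤ (a i : ℝ) - e i := by
            have : (e i : ℝ) ≤ a i := by exact_mod_cast hea i
            linarith
          have := hrr i
          positivity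

/-- comparison of the two bounds, in logarithms -/
theorem log_compare {F Q x Y : ℝ} (hF : 0 < F) (hQ : 0 < Q) (g R : ℕ)
    (h1 : F ^ g / Q ≤ |x|) (h2 : |x| ≤ 64 ^ R * Real.exp (-Y)) :
    (g : ℝ) * Real.log F - Real.log Q ≤ (R : ℝ) * Real.log 64 - Y := by
  have h3 := h1.trans h2
  have h4 : 0 < F ^ g / Q := by positivity
  have h5 := Real.log_le_log h4 h3
  rw [Real.log_div (by positivity) hQ.ne', Real.log_pow,
    Real.log_mul (by positivity) (Real.exp_pos _).ne', Real.log_pow, Real.log_exp] at h5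
  linarith

theorem goalCORE (hSI : SIEG) (hNV : NV) (hUB : UB) (hLB : LB) (hHG : HGT) : CORE := by
  classical
  intro S hS η hη hη1
  obtain ⟨u, hu⟩ : ∃ u : ℝ, u = η / 100 := ⟨_, rfl⟩
  have hu0 : 0 < u := by rw [hu]; positivity
  have hu1 : u ≤ 1 / 100 := by rw [hu]; linarith
  obtain ⟨m, hm1⟩ : ∃ m : ℕ, ((4 : ℝ) / u) ^ 2 ≤ m := ⟨_, Nat.le_ceil _⟩
  have h4u : 400 ≤ 4 / u := by
    rw [le_div_iff₀ hu0]; linarith
  obtain ⟨s, hs⟩ : ∃ s : ℝ, s = Real.sqrt m := ⟨_, rfl⟩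
  have hsq : 4 / u ≤ s := by rw [hs]; exact Real.le_sqrt_of_sq_le hm1
  have hsq1 : 1 ≤ s := by linarith
  have hmr : (1 : ℝ) ≤ m := by
    have : (1 : ℝ) ≤ (4 / u) ^ 2 := by nlinarith
    linarith
  have hmpos : 1 ≤ m := by exact_mod_cast hmr
  have hmm : s * s = m := by rw [hs]; exact Real.mul_self_sqrt (by positivity)
  obtain ⟨M, hM⟩ : ∃ M : ℝ, M = (m : ℝ) / 2 := ⟨_, rfl⟩
  have hsM : s + 1 ≤ u * M := by
    have h1 : 4 ≤ u * s := by
      have := mul_le_mul_of_nonneg_left hsq hu0.le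
      rwa [mul_div_cancel₀ _ hu0.ne'] at this
    have h2 : u * M = (u * s) * s / 2 := by
      rw [hM, mul_assoc, hmm]; ring
    rw [h2]
    nlinarith
  have hM1 : 1 ≤ M := by nlinarith
  obtain ⟨W, hW⟩ : ∃ W : ℝ, W = M - s - 1 := ⟨_, rfl⟩
  obtain ⟨V, hV⟩ : ∃ V : ℝ, V = M + s := ⟨_, rfl⟩
  have hW1 : (1 - u) * M ≤ W := by rw [hW]; nlinarith
  have hV1 : V ≤ (1 + u) * M := by rw [hV]; nlinarith
  have hW0 : 0 ≤ W := le_trans (by nlinarith) hW1
  have hV0 : 0 ≤ V := by rw [hV]; linarith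
  obtain ⟨ω, K, hω, hK, hroth⟩ := hNV m
  obtain ⟨xH, hxH⟩ := hHG S hS
  obtain ⟨ρ, hρ2, hρω, hρu⟩ : ∃ ρ : ℕ, 2 ≤ ρ ∧ 2 / ω ≤ (ρ : ℝ) ∧ 3 / u ≤ (ρ : ℝ) := by
    refine ⟨⌈2 / ω⌉₊ + ⌈3 / u⌉₊ + 2, by omega, ?_, ?_⟩
    · have := Nat.le_ceil (2 / ω)
      push_cast
      have h2 : (0 : ℝ) ≤ (⌈3 / u⌉₊ : ℝ) := by positivity
      linarith
    · have := Nat.le_ceil (3 / u)
      push_cast
      have h2 : (0 : ℝ) ≤ (⌈2 / ω⌉₊ : ℝ) := by positivity
      linarith
  obtain ⟨δ, hδ0, htδ⟩ : ∃ δ : ℝ, 0 < δ ∧ (S.card : ℝ) * δ ≤ u := by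
    refine ⟨u / ((S.card : ℝ) + 1), by positivity, ?_⟩
    rw [mul_div_assoc', div_le_iff₀ (by positivity)]
    nlinarith
  have hlog64 : 0 ≤ Real.log 64 := Real.log_nonneg (by norm_num)
  have hlog2 : 0 ≤ Real.log 2 := Real.log_nonneg (by norm_num)
  have hb1 : 0 ≤ 1 / u := by positivity
  have hb2 : 0 ≤ 2 * Real.log 64 / u := by positivity
  have hb3 : 0 ≤ (6 / η) * Real.log 2 := by positivity
  have hb4 : 0 ≤ 4 * K * m := by positivity
  have hb5 : (0 : ℝ) ≤ xH := by positivity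
  have ha1 : 0 ≤ 3 / u := by positivity
  have ha2 : 0 ≤ 4 / η := by positivity
  obtain ⟨x0, hx0⟩ := exists_x0 (2 + 3 / u + 4 / η)
    (1 / u + 2 * Real.log 64 / u + (6 / η) * Real.log 2 + 4 * K * m + 3 + xH)
  refine ⟨m, ρ, x0, δ, u / 3, hmpos, hρ2, hδ0, by positivity, ?_⟩
  intro n k θ hn hlog hch hnear hθ0 hdir
  obtain ⟨i0, hi0⟩ : ∃ i0 : Fin m, i0.val = 0 := ⟨⟨0, hmpos⟩, rfl⟩
  obtain ⟨L, hL⟩ : ∃ L : Fin m → ℝ, ∀ i, L i = Real.log ((n i).factorial : ℝ) :=
    ⟨_, fun _ => rfl⟩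
  have hnA : ∀ i, 2 ≤ Real.log (n i) ∧ 3 / u ≤ Real.log (n i) ∧ 4 / η ≤ Real.log (n i) := by
    intro i
    have h1 := (hx0 _ (hn i)).1
    refine ⟨by linarith, by linarith, by linarith⟩
  have hnB : ∀ i, 1 / u ≤ (n i : ℝ) ∧ 2 * Real.log 64 / u ≤ (n i : ℝ) ∧
      (6 / η) * Real.log 2 ≤ (n i : ℝ) ∧ 4 * K * m ≤ (n i : ℝ) ∧ 3 ≤ (n i : ℝ) ∧
      (xH : ℝ) ≤ n i := by
    intro i
    have h1 := (hx0 _ (hn i)).2
    refine ⟨by linarith, by linarith, by linarith, by linarith, by linarith, by linarith⟩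
  clear hx0
  have hn3 : ∀ i, 3 ≤ n i := fun i => by
    have := (hnB i).2.2.2.2.1
    exact_mod_cast this
  have hnH : ∀ i, xH ≤ n i := fun i => by
    have := (hnB i).2.2.2.2.2
    exact_mod_cast this
  have hLlow : ∀ i, (n i : ℝ) * (Real.log (n i) - 1) ≤ L i := by
    intro i
    have h1 := fact_lower (n i) (by have := hn3 i; omega)
    have h2 : (0 : ℝ) < ((n i).factorial : ℝ) := by exact_mod_cast (n i).factorial_pos
    have h3 := (Real.le_log_iff_exp_le h2).mpr h1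
    rw [hL]
    linarith
  have hLn : ∀ i, (n i : ℝ) ≤ L i := by
    intro i
    have h2 := (hnA i).1
    have h3 : (0 : ℝ) ≤ n i := by positivity
    have := hLlow i
    nlinarith
  have hLup : ∀ i, L i ≤ (n i : ℝ) * Real.log (n i) := fun i => by
    rw [hL]; exact log_fact_upper (n i)
  have hLpos : ∀ i, 0 < L i := by
    intro i
    have h1 := hLn i
    have h2 := (hnB i).2.2.2.2.1
    linarith
  have hi0le : ∀ i, i = i0 ∨ i0 < i := by
    intro i
    rcases Nat.eq_zero_or_pos i.val with h | h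
    · left; exact Fin.ext (by omega)
    · right; exact Fin.lt_def.mpr (by omega)
  have hLch : ∀ i j, i < j → (ρ : ℝ) * L i ≤ L j := by
    intro i j hij
    rw [hL, hL]
    exact mul_log_fact_le (hch i j hij)
  have hL0le : ∀ i, L i0 ≤ L i := by
    intro i
    rcases hi0le i with h | h
    · rw [h]
    · have h1 := hLch i0 i h
      have h2 : (2 : ℝ) ≤ ρ := by exact_mod_cast hρ2
      have h3 := hLpos i0
      nlinarith
  obtain ⟨D, r, hDpos, hLuD, hrpos, hr1, hr2, hsumr⟩ := degrees i0 L hLpos hL0le hu0 hu1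
  have hrr : ∀ i, (0 : ℝ) < r i := fun i => by
    have := hrpos i
    exact_mod_cast this
  obtain ⟨R, hR⟩ : ∃ R : ℕ, R = ∑ i, r i := ⟨_, rfl⟩
  rw [← hR] at hsumr
  have hR0 : (0 : ℝ) ≤ R := by positivity
  -- the auxiliary polynomial
  obtain ⟨c, hc⟩ := hSI m r hrpos
  obtain ⟨hc1, hc2, hc3, hc4⟩ := id hc
  obtain ⟨ξ, hξ⟩ : ∃ ξ : Fin m → ℚ,
      ξ = fun i => ((n i).factorial : ℚ) / (su S (k i) : ℚ) := ⟨_, rfl⟩
  obtain ⟨e, he1, he2⟩ := hroth r ξ c hc1 (fun a ha => (hc2 a ha).1) hc3 hrpos (by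
    intro h h' hh
    have h1 := hLch h h' hh
    have h2 := hr1 h'
    have h3 := hr2 h
    have h4 : (1 / 2 : ℝ) * D ≤ (r h : ℝ) * L h := by nlinarith
    have h5 : (2 / ω) * L h ≤ L h' := by
      have := hLpos h
      nlinarith
    have h6 : (r h' : ℝ) * ((2 / ω) * L h) ≤ 2 * ((r h : ℝ) * L h) := by
      have := mul_le_mul_of_nonneg_left h5 (hrr h').le
      linarith
    have h7 : ((r h' : ℝ) * (2 / ω)) * L h ≤ (2 * (r h : ℝ)) * L h := by linarith
    have h8 := le_of_mul_le_mul_right h7 (hLpos h)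
    rw [mul_div_assoc', div_le_iff₀ hω] at h8
    linarith) (by
    intro h
    rw [← hR]
    have h1 : (1 / 2 : ℝ) * ((n h : ℝ) * Real.log (n h)) ≤ Height.logHeight₁ (ξ h) := by
      rw [hξ]
      exact hxH (n h) (hnH h) (k h)
    have h2 := hLup h
    have h3 := hr2 h
    have h4 : D / 4 ≤ (r h : ℝ) * Height.logHeight₁ (ξ h) := by
      have h5 : (1 / 2 : ℝ) * L h ≤ Height.logHeight₁ (ξ h) := by linarith
      have := mul_le_mul_of_nonneg_left h5 (hrr h).le
      nlinarith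
    refine le_trans ?_ h4
    have h6 : 4 * K * m ≤ L i0 := by
      have h7 := (hnB i0).2.2.2.1
      have h8 := hLn i0
      linarith
    have h7 : (4 * K * m) * (R : ℝ) ≤ m * D := by
      have := mul_le_mul_of_nonneg_right h6 hR0
      linarith
    have h9 : (0 : ℝ) < m := by linarith
    have h10 : (m : ℝ) * (4 * (K * (R : ℝ))) ≤ m * D := by linarith
    have := le_of_mul_le_mul_left h10 h9
    linarith)
  have hwte : wt r e ≤ 1 := he1.le
  -- upper bound
  have hns : ∀ i, |((ξ i : ℚ) : ℝ) - 1| ≤ Real.exp (-((η / 3) * L i)) ∧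
      Real.log (su S (k i) : ℝ) ≤ L i + 1 := by
    intro i
    rw [hL, hξ]
    refine near_small hS hη (hn3 i) ?_ ?_ (hnear i)
    · have h2 := (hnA i).2.2
      rw [div_le_iff₀ hη] at h2
      linarith
    · have h2 : (6 / η) * Real.log 2 ≤ L i := (hnB i).2.2.1.trans (hLn i)
      have h3 := mul_le_mul_of_nonneg_left h2 (show 0 ≤ η / 6 by positivity)
      have h4 : (η / 6) * ((6 / η) * Real.log 2) = Real.log 2 := by field_simp
      rw [h4] at h3
      rw [← hL]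
      exact h3
  have hup := hUB m r c e ξ (fun i => (η / 3) * L i) ((η / 3) * ((1 - u) * D)) hrpos hc hwte
    (by have : 0 ≤ 1 - u := by linarith
        positivity)
    (fun i => by have := hLpos i; positivity) (fun i => (hns i).1)
    (fun i => by
      have h1 := hr2 i
      have h2 := mul_le_mul_of_nonneg_left h1 (show 0 ≤ η / 3 by positivity)
      calc (η / 3) * ((1 - u) * D) ≤ (η / 3) * ((r i : ℝ) * L i) := h2
        _ = (η / 3) * L i * (r i : ℝ) := by ring)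
  rw [← hR, ← hs, ← hM, ← hW] at hup
  -- lower bound
  have hlogp : ∀ p ∈ S, 0 < Real.log (p : ℝ) := by
    intro p hp
    apply Real.log_pos
    exact_mod_cast (hS p hp).one_lt
  have hn0 : 0 < n i0 := by have := hn3 i0; omega
  have hq : ∀ i, (1 - u) * L i ≤ ((n i / n i0 : ℕ) : ℝ) * L i0 := by
    intro i
    rcases hi0le i with h | h
    · rw [h, Nat.div_self hn0, Nat.cast_one, one_mul]
      have := hLpos i0
      nlinarith
    · exact quot_low hu0 hu1 hn0 hρu (hch i0 i h) (hnA i0).2.1 (hLlow i0) (hLup i) (hlog i i0)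
  obtain ⟨E, hE1, hE2⟩ : ∃ E : ℕ → ℕ,
      (∀ p ∈ S, ∀ x : ℕ, (x : ℝ) * Real.log p ≤ (θ p + δ) * (D * V) → x ≤ E p) ∧
      (∀ p ∈ S, (E p : ℝ) * Real.log p ≤ (θ p + δ) * (D * V)) := by
    refine ⟨fun p => ⌊(θ p + δ) * (D * V) / Real.log p⌋₊, ?_, ?_⟩
    · intro p hp x hx
      apply Nat.le_floor
      rw [le_div_iff₀ (hlogp p hp)]
      exact hx
    · intro p hp
      have h0 : 0 ≤ (θ p + δ) * (D * V) / Real.log p := by
        have h1 := hθ0 p hp
        have h2 := hlogp p hp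
        positivity
      have h1 := Nat.floor_le h0
      rwa [le_div_iff₀ (hlogp p hp)] at h1
  obtain ⟨g, hg1, hg2⟩ : ∃ g : ℕ, (g : ℝ) * L i0 ≤ (1 - u) * ((1 - u) * D * W) ∧
      (1 - u) * ((1 - u) * D * W) ≤ ((g : ℝ) + 1) * L i0 := by
    have h0 : 0 ≤ (1 - u) * ((1 - u) * D * W) / L i0 := by
      have h1 := hLpos i0
      have h2 : 0 ≤ 1 - u := by linarith
      positivity
    refine ⟨⌊(1 - u) * ((1 - u) * D * W) / L i0⌋₊, ?_, ?_⟩
    · have h1 := Nat.floor_le h0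
      rwa [le_div_iff₀ (hLpos i0)] at h1
    · have h1 := (Nat.lt_floor_add_one ((1 - u) * ((1 - u) * D * W) / L i0)).le
      rwa [div_le_iff₀ (hLpos i0)] at h1
  have hlow := hLB S hS m r c n k e E g (n i0) (by omega) (by
    intro a ha hea
    obtain ⟨ha1, ha2⟩ := hc2 a ha
    rw [← hs, ← hM] at ha2
    have ha3 := abs_le.mp ha2
    have hsums := expo_sums L hLpos hu0 hu1 hDpos r hrpos hr1 hr2 a e hea (V := V) (W := W)
      (by rw [hV]; linarith) (by rw [hW]; linarith)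
    constructor
    · intro p hp
      apply hE1 p hp
      push_cast
      rw [Finset.sum_mul]
      calc ∑ i, ((a i - e i : ℕ) : ℝ) * (k i p : ℝ) * Real.log p
          ≤ ∑ i, (θ p + δ) * (((a i - e i : ℕ) : ℝ) * L i) := by
            refine Finset.sum_le_sum fun i _ => ?_
            have h1 := (hdir i p hp).2
            rw [← hL] at h1
            have h2 : (0 : ℝ) ≤ ((a i - e i : ℕ) : ℝ) := by positivity
            have := mul_le_mul_of_nonneg_left h1 h2
            linarith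
        _ = (θ p + δ) * ∑ i, (((a i - e i : ℕ) : ℝ) * L i) := by rw [Finset.mul_sum]
        _ ≤ (θ p + δ) * (D * V) := by
            apply mul_le_mul_of_nonneg_left hsums.1
            have := hθ0 p hp
            linarith
    · have h1 : (g : ℝ) * L i0 ≤ ((∑ i, (a i - e i) * (n i / n i0) : ℕ) : ℝ) * L i0 := by
        refine hg1.trans ?_
        push_cast
        rw [Finset.sum_mul]
        calc (1 - u) * ((1 - u) * D * W)
            ≤ (1 - u) * ∑ i, ((a i - e i : ℕ) : ℝ) * L i :=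
              mul_le_mul_of_nonneg_left hsums.2 (by linarith)
          _ = ∑ i, ((a i - e i : ℕ) : ℝ) * ((1 - u) * L i) := by
              rw [Finset.mul_sum]
              exact Finset.sum_congr rfl fun i _ => by ring
          _ ≤ ∑ i, ((a i - e i : ℕ) : ℝ) * ((n i / n i0 : ℕ) : ℝ) * L i0 := by
              refine Finset.sum_le_sum fun i _ => ?_
              rw [mul_assoc]
              exact mul_le_mul_of_nonneg_left (hq i) (by positivity)
      exact_mod_cast le_of_mul_le_mul_right h1 (hLpos i0)) (by rw [hξ] at he2; exact he2)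
  rw [hξ] at hup
  have hsuE : (0 : ℝ) < su S E := by exact_mod_cast su_pos hS E
  have hf0 : (0 : ℝ) < (((n i0).factorial : ℕ) : ℝ) := by exact_mod_cast (n i0).factorial_pos
  have hcmp := log_compare hf0 hsuE g R hlow hup
  rw [← hL] at hcmp
  have hEsum : Real.log (su S E : ℝ) ≤ (1 + 2 * u) * (D * V) := by
    rw [log_su hS]
    have h1 : ∑ p ∈ S, (E p : ℝ) * Real.log p ≤ ∑ p ∈ S, (θ p + δ) * (D * V) :=
      Finset.sum_le_sum fun p hp => hE2 p hp
    refine h1.trans ?_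
    rw [← Finset.sum_mul, Finset.sum_add_distrib, Finset.sum_const, nsmul_eq_mul]
    apply mul_le_mul_of_nonneg_right _ (by positivity)
    have h2 : (∑ p ∈ S, θ p) * L i0 ≤ L i0 + 1 := by
      refine le_trans ?_ (hns i0).2
      rw [log_su hS, Finset.sum_mul]
      refine Finset.sum_le_sum fun p hp => ?_
      have := (hdir i0 p hp).1
      rw [← hL] at this
      exact this
    have h3 : 1 ≤ u * L i0 := by
      have h4 := (hnB i0).1.trans (hLn i0)
      rw [div_le_iff₀ hu0] at h4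
      linarith
    have h5 : (∑ p ∈ S, θ p) * L i0 ≤ (1 + u) * L i0 := by linarith
    have h6 := le_of_mul_le_mul_right h5 (hLpos i0)
    linarith
  have hR64 : (R : ℝ) * Real.log 64 ≤ u * M * D := by
    have h1 : 2 * Real.log 64 / u ≤ L i0 := (hnB i0).2.1.trans (hLn i0)
    rw [div_le_iff₀ hu0] at h1
    have h2 : (R : ℝ) * (2 * Real.log 64) ≤ (R : ℝ) * (L i0 * u) :=
      mul_le_mul_of_nonneg_left h1 hR0
    have h3 : (R : ℝ) * (L i0 * u) ≤ u * (m * D) := by
      have := mul_le_mul_of_nonneg_left hsumr hu0.le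
      linarith
    rw [hM]
    linarith
  have hL0D := hLuD i0
  apply num_contra hu0 hu1 hM1 hW1 hV1
  have hfin : (1 - u) * ((1 - u) * D * W) - u * D - (1 + 2 * u) * (D * V) ≤
      u * M * D - (η / 3) * ((1 - u) * D) * W := by linarith
  have hη3 : η / 3 = (100 / 3) * u := by rw [hu]; ring
  rw [hη3] at hfin
  have h1 : D * ((1 - u) ^ 2 * W + (100 / 3) * u * (1 - u) * W) ≤
      D * ((1 + 2 * u) * V + u + u * M) := by nlinarith
  exact le_of_mul_le_mul_left h1 hDpos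

end Pool.Agent.Helper50.FE
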