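import Pool.Agent.Helper22.FSU.Count
import Pool.Agent.Helper92.Ru.DefsR

/-!
# Project FE: few factorials are close to S-units (Roth machine)

Goals. `box r` is the box of exponents `a i ≤ r i`, `wt r a = Σ a i / r i`, and `val r c e y` is the
value at `y` of the divided derivative of order `e` of the polynomial `Σ c a X^a`.
-/

set_option autoImplicit false

open Finset Pool.Agent.Helper22.FSU

namespace Pool.Agent.Helper50.FE

/-- exponents with `a i ≤ r i` -/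
def box {m : ℕ} (r : Fin m → ℕ) : Finset (Fin m → ℕ) :=
  Fintype.piFinset (fun i => Finset.range (r i + 1))

/-- the weight `Σ a i / r i` -/
noncomputable def wt {m : ℕ} (r a : Fin m → ℕ) : ℝ := ∑ i, (a i : ℝ) / (r i : ℝ)

/-- value at `y` of the divided derivative of order `e` of `Σ c a X^a` -/
def val {m : ℕ} (r : Fin m → ℕ) (c : (Fin m → ℕ) → ℤ) (e : Fin m → ℕ) (y : Fin m → ℚ) : ℚ :=
  ∑ a ∈ box r, (c a : ℚ) * ∏ i, ((((a i).choose (e i) : ℕ) : ℚ) * y i ^ (a i - e i))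

/-- the coefficients `c` are those of an admissible auxiliary polynomial -/
def Adm {m : ℕ} (r : Fin m → ℕ) (c : (Fin m → ℕ) → ℤ) : Prop :=
  (∃ a, c a ≠ 0) ∧
  (∀ a, c a ≠ 0 → a ∈ box r ∧ |wt r a - (m : ℝ) / 2| ≤ Real.sqrt m) ∧
  (∀ a, |c a| ≤ 4 ^ (∑ i, r i)) ∧
  (∀ b : Fin m → ℕ, wt r b < (m : ℝ) / 2 - Real.sqrt m →
    ∑ a ∈ box r, c a * ∏ i, (((a i).choose (b i) : ℕ) : ℤ) = 0)

/-- FE-CHEB. Chebyshev's inequality for the uniform measure on the box.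
PROOF. The mean of `a i / r i` over `0..r i` is `1/2`, its variance is `(r i + 2) / (12 r i) ≤ 1/4`
(`r i ≥ 1`), the coordinates are independent (`Finset.sum_prod_piFinset`, or induction on `m` with
`Fin.consEquiv`), so `Σ_{a ∈ box r} (wt r a - m/2)^2 ≤ (m/4) (box r).card`; on the filtered set the
square is `> m`, hence `m * card(filter) ≤ (m/4) card(box)`. For `m = 0` the filter is empty. -/
def CHEB : Prop :=
  ∀ (m : ℕ) (r : Fin m → ℕ), (∀ i, 1 ≤ r i) →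
    4 * ((box r).filter (fun a => Real.sqrt m < |wt r a - (m : ℝ) / 2|)).card ≤ (box r).card

/-- FE-SIEG. Siegel's lemma: an admissible auxiliary polynomial exists.
PROOF. Let `A` be the set of `a ∈ box r` with `|wt r a - m/2| ≤ √m` and `B` the set of `b ∈ box r`
with `wt r b < m/2 - √m`. By CHEB `4 #(box \ A) ≤ #box`, so `4 #A ≥ 3 #box`, and `B ⊆ box \ A`, so
`4 #B ≤ #box`; hence `#A - #B ≥ 2 #B` and `#A ≥ 1`. If `B` is empty take `c = 1` at one point of `A`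
and `0` elsewhere. Otherwise apply `Int.Matrix.exists_ne_zero_int_vec_norm_le` to the matrix with rows
in `B`, columns in `A` and entries `∏ C(a i, b i)`, whose absolute values are at most `2^(Σ r)`:
exponent `#B/(#A-#B) ≤ 1/2`, and `#A ≤ ∏ (r i + 1) ≤ 2^(Σ r)`, so `‖t‖ ≤ (4^(Σ r))^(1/2) ≤ 4^(Σ r)`.
Extend `t` by zero. For `b` outside the box some `b i > r i`, so all products vanish. -/
def SIEG : Prop :=
  ∀ (m : ℕ) (r : Fin m → ℕ), (∀ i, 1 ≤ r i) → ∃ c : (Fin m → ℕ) → ℤ, Adm r c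

/-- FE-NV. Roth's lemma applied to the auxiliary polynomial: some divided derivative of small order
does not vanish.
PROOF. Apply `Pool.Agent.Helper92.Ru.rothLemma m ℚ (1/2)` (file `Pool/Agent/Helper92/Ru/AsmA.lean`)
to get `ω, C`; put `K = C (2 log 4 + 1)` or larger. Let `p = Σ_{a ∈ box r} c a X^a` in
`MvPolynomial (Fin m) ℚ`: `p ≠ 0`, `degreeOf h p ≤ r h`, and `PH p ≤ 4^(Σ r)` (theorem
`Pool.Agent.Helper87.Ru.PHBound`-file: H12 `PHBound`, with `finrank ℚ ℚ = 1`; the coefficients are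
integers). Take `R = Σ r`. If `IndGe r ξ 1 p` held, Roth's lemma would give `1 ≤ 1/2`. So some monomial
`e` of `shiftP ξ p` has `Σ e h / r h < 1`, and its coefficient, which is `val r c e ξ` (binomial
theorem in every variable), is not zero. -/
def NV : Prop :=
  ∀ m : ℕ, ∃ ω K : ℝ, 0 < ω ∧ 0 < K ∧
    ∀ (r : Fin m → ℕ) (ξ : Fin m → ℚ) (c : (Fin m → ℕ) → ℤ),
      (∃ a, c a ≠ 0) → (∀ a, c a ≠ 0 → a ∈ box r) → (∀ a, |c a| ≤ 4 ^ (∑ i, r i)) →
      (∀ h, 1 ≤ r h) → (∀ h h' : Fin m, h < h' → (r h' : ℝ) ≤ ω * r h) →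
      (∀ h, K * ((∑ i, r i : ℕ) : ℝ) ≤ (r h : ℝ) * Height.logHeight₁ (ξ h)) →
      ∃ e : Fin m → ℕ, wt r e < 1 ∧ val r c e ξ ≠ 0

/-- FE-UB. Upper bound at a point close to `(1,...,1)`.
PROOF. `y i ^ (a i - e i) = Σ_{f ≤ r i} C(a i - e i, f) (y i - 1)^f` (terms with `f > a i - e i`
vanish) and `C(a, e) C(a - e, f) = C(a, e + f) C(e + f, e)` (`Nat.choose_mul`-type identity, both sides
`0` unless `e + f ≤ a`). Hence `val r c e y = Σ_{f ∈ box r} (∏ C(e i + f i, e i) (y i - 1)^(f i)) *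
Σ_a c a ∏ C(a i, e i + f i)`. The inner sum vanishes unless `wt r (e + f) ≥ m/2 - √m`, and also unless
`e i + f i ≤ r i` for all `i`; then `wt r f ≥ m/2 - √m - 1`, `∏ C(e i + f i, e i) ≤ 2^(Σ r)`, the inner
sum is at most `2^(Σ r) 4^(Σ r) 2^(Σ r)` (number of `a`, size of `c`, binomials) and
`∏ |y i - 1|^(f i) ≤ exp(-Σ β i f i) ≤ exp(-B Σ f i / r i)`. Number of `f`: at most `2^(Σ r)`.
Total `2 * 2 * 2 * 4 * 2 = 64` to the power `Σ r`. -/
def UB : Prop :=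
  ∀ (m : ℕ) (r : Fin m → ℕ) (c : (Fin m → ℕ) → ℤ) (e : Fin m → ℕ) (y : Fin m → ℚ)
    (β : Fin m → ℝ) (B : ℝ), (∀ i, 1 ≤ r i) → Adm r c → wt r e ≤ 1 → 0 ≤ B → (∀ i, 0 ≤ β i) →
    (∀ i, |((y i : ℚ) : ℝ) - 1| ≤ Real.exp (-(β i))) → (∀ i, B ≤ β i * (r i : ℝ)) →
    |((val r c e y : ℚ) : ℝ)| ≤
      64 ^ (∑ i, r i) * Real.exp (-(B * ((m : ℝ) / 2 - Real.sqrt m - 1)))

/-- FE-LB. Lower bound of a nonzero value by denominators and common factors.
PROOF. Multiply `val r c e y` by `su S E`: every term with `c a ≠ 0` and `e ≤ a` becomes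
`c a ∏ C(a i, e i) ∏ (n i)!^(a i - e i) * (su S E / ∏ (su S (k i))^(a i - e i))`, where the last factor
is an integer (compare exponents, `prod_su_pow`) and `(n0!)^g` divides `∏ (n i)!^(a i - e i)` because
`(n0!)^(n / n0)` divides `n!` (`Nat.factorial_mul_pow_le_factorial`-type; or `fact_pow_mul` in
`Pool/Agent/Helper22/FSU/Basic.lean` and `Nat.factorial_dvd_factorial`); the other terms are zero. So
`su S E * val` is an integer multiple of `(n0!)^g`, and it is not zero. -/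
def LB : Prop :=
  ∀ (S : Finset ℕ), (∀ p ∈ S, Nat.Prime p) → ∀ (m : ℕ) (r : Fin m → ℕ)
    (c : (Fin m → ℕ) → ℤ) (n : Fin m → ℕ) (k : Fin m → ℕ → ℕ) (e : Fin m → ℕ) (E : ℕ → ℕ)
    (g n0 : ℕ), 1 ≤ n0 →
    (∀ a, c a ≠ 0 → (∀ i, e i ≤ a i) →
      (∀ p ∈ S, ∑ i, (a i - e i) * k i p ≤ E p) ∧ g ≤ ∑ i, (a i - e i) * (n i / n0)) →
    val r c e (fun i => ((n i).factorial : ℚ) / (su S (k i) : ℚ)) ≠ 0 →
    ((n0.factorial : ℕ) : ℝ) ^ g / (su S E : ℝ) ≤
      |((val r c e (fun i => ((n i).factorial : ℚ) / (su S (k i) : ℚ)) : ℚ) : ℝ)|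

/-- FE-HGT. The height of `n! / u` for an S-unit `u`.
PROOF. Let `d = gcd(n!, su S k)`. Its `p`-part for `p ∈ S` is at most `p^(v_p(n!)) ≤ p^n`
(`Nat.Prime.multiplicity`/`sub_one_mul_padicValNat_factorial`: `v_p(n!) ≤ n`), it has no other prime
factors, so `d ≤ (∏ p ∈ S, p)^n`. The numerator of the reduced fraction is `n!/d`, so by
`Rat.logHeight₁_eq_log_max` the height is at least `log n! - n log (∏ p)`, and
`log n! ≥ n log n - n` (`fact_lower`). -/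
def HGT : Prop :=
  ∀ (S : Finset ℕ), (∀ p ∈ S, Nat.Prime p) → ∃ x0 : ℕ, ∀ n : ℕ, x0 ≤ n → ∀ k : ℕ → ℕ,
    (1 / 2 : ℝ) * ((n : ℝ) * Real.log n) ≤
      Height.logHeight₁ (((n.factorial : ℕ) : ℚ) / (su S k : ℚ))

/-- FE-CORE. There is no long chain of exceptional integers with the same direction in a short
logarithmic window. -/
def CORE : Prop :=
  ∀ (S : Finset ℕ), (∀ p ∈ S, Nat.Prime p) → ∀ η : ℝ, 0 < η → η ≤ 1 →
    ∃ (m ρ x0 : ℕ) (δ ε : ℝ), 1 ≤ m ∧ 2 ≤ ρ ∧ 0 < δ ∧ 0 < ε ∧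
      ∀ (n : Fin m → ℕ) (k : Fin m → ℕ → ℕ) (θ : ℕ → ℝ), (∀ i, x0 ≤ n i) →
        (∀ i j, Real.log (n i) ≤ (1 + ε) * Real.log (n j)) →
        (∀ i j, i < j → ρ * n i ≤ n j) → (∀ i, Near S (1 - η) (n i) (k i)) →
        (∀ p ∈ S, 0 ≤ θ p) →
        (∀ i, ∀ p ∈ S, θ p * Real.log ((n i).factorial : ℝ) ≤ (k i p : ℝ) * Real.log p ∧
          (k i p : ℝ) * Real.log p ≤ (θ p + δ) * Real.log ((n i).factorial : ℝ)) →
        False

/-- FE-WIN. A short logarithmic window contains a bounded number of exceptional integers.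
PROOF (from CORE and `Pool.Agent.Helper22.FSU.dyadic`). Take `m, ρ, x0, δ, ε` from CORE and `Kd, x1`
from `dyadic`. Let `j` be such that `ρ ≤ 2^j`; a set of exceptional integers in `[y, ρ y)` has at most
`j Kd` elements (`blocks`). For `y` in `W` choose `k y`, and let its class be
`p ↦ ⌊k y p log p / (δ log y!)⌋ ∈ {0, ..., ⌊2/δ⌋}`: indeed `k y p log p ≤ log (su S (k y)) ≤
log y! + 1 ≤ 2 log y!` by `approx` for `y` large. If `W.card > (⌊2/δ⌋+1)^t * (m * j * Kd)` then one class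
has more than `m * (j Kd)` elements, and the greedy choice (as in `greedy` in
`Pool/Agent/Helper22/FSU/Count.lean`, with `ρ` in place of `2`) gives a chain `n : Fin m → ℕ` in it
with `ρ * n i ≤ n j` for `i < j`. With `θ p = δ * class p` this contradicts CORE. (The logarithms:
`x ≤ n i` and `log (n i) ≤ (1 + ε) log x`, so `log (n i) ≤ (1 + ε) log (n j)`.) -/
def WIN : Prop :=
  ∀ (S : Finset ℕ), (∀ p ∈ S, Nat.Prime p) → ∀ η : ℝ, 0 < η → η ≤ 1 →
    ∃ (K x0 : ℕ) (ε : ℝ), 0 < ε ∧ ∀ x : ℕ, x0 ≤ x → ∀ W : Finset ℕ,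
      (∀ y ∈ W, x ≤ y ∧ Real.log y ≤ (1 + ε) * Real.log x ∧ ∃ k, Near S (1 - η) y k) →
      W.card ≤ K

/-- FE-CNT. The counting theorem.
PROOF (from WIN). It suffices to treat `C = 1 - η` with `0 < η ≤ 1` (for `C ≤ 0` use that
`Near S C n k` implies `Near S 0 n k` for `n ≥ 1`, i.e. `η = 1`). Let `K, x0, ε` be as in WIN. Let
`E` be the finite set of exceptional `n` with `Y ≤ n ≤ X` and `n ≥ max x0 2`; for `j ≥ 0` let `E_j` be
the part with `(1+ε)^j log Y ≤ log n < (1+ε)^(j+1) log Y` (`log Y > 0`). If `E_j` is nonempty, let `x`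
be its least element: all `y` in `E_j` satisfy `x ≤ y` and `log y ≤ (1+ε) log x`, so `#E_j ≤ K`. Only
`j ≤ log (log X / log Y) / log (1+ε)` occur. Hence the number is at most
`x0 + 2 + K (1 + log (log X/log Y)/log (1+ε))`. -/
def CNT : Prop :=
  WIN → ∀ (S : Finset ℕ), (∀ p ∈ S, Nat.Prime p) → ∀ C : ℝ, C < 1 →
    ∃ M : ℝ, ∀ Y X : ℕ, 2 ≤ Y → Y ≤ X →
      (({n : ℕ | Y ≤ n ∧ n ≤ X ∧ ∃ k, Near S C n k}.ncard : ℕ) : ℝ) ≤
        M * (1 + Real.log (Real.log X / Real.log Y))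

end Pool.Agent.Helper50.FE
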