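import Pool.Agent.Helper50.FE.CORE
import Pool.Agent.Helper86.FE.CHEB
import Pool.Agent.Helper88.FE.SIEG
import Pool.Agent.Helper91.FE.NV
import Pool.Agent.Helper87.FE.UB
import Pool.Agent.Helper22.FE.LB
import Pool.Agent.Helper8.FE.HGT
import Pool.Agent.Helper9.FE.WIN
import Pool.Agent.Helper14.FE.CNT

/-! Assembly of project FE -/

set_option autoImplicit false

open Pool.Agent.Helper22.FSU

namespace Pool.Agent.Helper50.FE

theorem win : WIN :=
  Pool.Agent.Helper9.FE.goalWIN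
    (goalCORE (Pool.Agent.Helper88.FE.goalSIEG Pool.Agent.Helper86.FE.goalCHEB)
      Pool.Agent.Helper91.FE.goalNV Pool.Agent.Helper87.FE.goalUB
      Pool.Agent.Helper22.FE.goalLB Pool.Agent.Helper8.FE.goalHGT)

theorem count (S : Finset ℕ) (hS : ∀ p ∈ S, Nat.Prime p) (C : ℝ) (hC : C < 1) :
    ∃ M : ℝ, ∀ Y X : ℕ, 2 ≤ Y → Y ≤ X →
      (({n : ℕ | Y ≤ n ∧ n ≤ X ∧ ∃ k, Near S C n k}.ncard : ℕ) : ℝ) ≤
        M * (1 + Real.log (Real.log X / Real.log Y)) :=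
  Pool.Agent.Helper14.FE.goalCNT win S hS C hC

end Pool.Agent.Helper50.FE
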